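import Mathlib
import Pool.Agent.Run7.h662.DC.Iface

set_option autoImplicit false

namespace Run7.h781.DC
open Finset Run7.h662.DC

/-- representatives of clusters -/
def Rp (J : Finset ℕ) (g : ℕ) : Finset ℕ := {c ∈ J | ∀ a ∈ J, a < c → a + 4 * g < c}

/-- the representative of `a` -/
def rp (J : Finset ℕ) (g a : ℕ) : ℕ := ({c ∈ Rp J g | c ≤ a} : Finset ℕ).sup id

theorem rp_max {J : Finset ℕ} {g a c : ℕ} (hc : c ∈ Rp J g) (h : c ≤ a) : c ≤ rp J g a :=
  Finset.le_sup (f := id) (by simp [hc, h])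

theorem Rp_gap {J : Finset ℕ} {g a c : ℕ} (hc : c ∈ Rp J g) (ha : a ∈ J) (h : a < c) :
    a + 4 * g < c := by
  simp only [Rp, mem_filter] at hc
  exact hc.2 a ha h

theorem Rp_sub {J : Finset ℕ} {g c : ℕ} (hc : c ∈ Rp J g) : c ∈ J := by
  simp only [Rp, mem_filter] at hc
  exact hc.1

theorem exists_rep {J : Finset ℕ} {g : ℕ} : ∀ a ∈ J, ∃ c ∈ Rp J g, c ≤ a ∧
    a ≤ c + 4 * g * #{x ∈ J | c ≤ x ∧ x < a} := by
  intro a
  induction a using Nat.strong_induction_on with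
  | _ a ih =>
    intro ha
    by_cases h : a ∈ Rp J g
    · exact ⟨a, h, le_rfl, Nat.le_add_right _ _⟩
    · have : ∃ b ∈ J, b < a ∧ a ≤ b + 4 * g := by
        by_contra hcon
        push Not at hcon
        apply h
        simp only [Rp, mem_filter]
        exact ⟨ha, hcon⟩
      obtain ⟨b, hb, hba, hab⟩ := this
      obtain ⟨c, hc, hcb, hbc⟩ := ih b hba hb
      refine ⟨c, hc, hcb.trans hba.le, ?_⟩
      have hcard : #{x ∈ J | c ≤ x ∧ x < b} + 1 ≤ #{x ∈ J | c ≤ x ∧ x < a} := by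
        rw [← Nat.lt_iff_add_one_le]
        apply Finset.card_lt_card
        rw [Finset.ssubset_iff_of_subset]
        · exact ⟨b, by simp [hb, hcb, hba], by simp⟩
        · intro x hx
          simp only [mem_filter] at hx ⊢
          exact ⟨hx.1, hx.2.1, hx.2.2.trans hba⟩
      nlinarith

theorem rp_spec {J : Finset ℕ} {g a : ℕ} (ha : a ∈ J) : rp J g a ∈ Rp J g ∧ rp J g a ≤ a ∧
    a ≤ rp J g a + 4 * g * #J := by
  obtain ⟨c, hc, hca, h⟩ := exists_rep (g := g) a ha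
  have hne : ({c ∈ Rp J g | c ≤ a} : Finset ℕ).Nonempty := ⟨c, by simp [hc, hca]⟩
  obtain ⟨i, hi, hi2⟩ := Finset.exists_mem_eq_sup _ hne (id : ℕ → ℕ)
  have e : rp J g a = i := hi2
  simp only [mem_filter] at hi
  have h1 := rp_max hc hca
  have h2 : #{x ∈ J | c ≤ x ∧ x < a} ≤ #J := card_filter_le _ _
  have h3 : 4 * g * #{x ∈ J | c ≤ x ∧ x < a} ≤ 4 * g * #J := Nat.mul_le_mul_left _ h2
  refine ⟨e ▸ hi.1, e ▸ hi.2, by omega⟩

theorem rp_self {J : Finset ℕ} {g c : ℕ} (hc : c ∈ Rp J g) : rp J g c = c :=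
  le_antisymm (rp_spec (Rp_sub hc)).2.1 (rp_max hc le_rfl)

/-- if the representative of `a` is below `c` then `a` is far below `c` -/
theorem far {J : Finset ℕ} {g a c : ℕ} (hc : c ∈ Rp J g) (ha : a ∈ J) (h : rp J g a < c) :
    a + 4 * g < c := by
  apply Rp_gap hc ha
  by_contra hcon
  exact absurd (rp_max hc (not_lt.mp hcon)) (not_le.mpr h)

section field
variable {A : Type*} [Field A]

/-- cluster weight -/
noncomputable def wt (f : ℕ → A) (J : Finset ℕ) (g c : ℕ) : A :=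
  ∑ a ∈ J with rp J g a = c, f a

theorem sum_cl (f : ℕ → A) (J : Finset ℕ) (g : ℕ) (H : ℕ → A) :
    ∑ a ∈ J, H (rp J g a) * f a = ∑ c ∈ Rp J g, H c * wt f J g c := by
  rw [← Finset.sum_fiberwise_of_maps_to (s := J) (t := Rp J g) (g := rp J g)
    (fun a ha => (rp_spec ha).1)]
  refine Finset.sum_congr rfl fun c _ => ?_
  rw [wt, Finset.mul_sum]
  refine Finset.sum_congr rfl fun a ha => ?_
  rw [mem_filter] at ha
  rw [ha.2]

theorem sum_cl2 (f : ℕ → A) (J : Finset ℕ) (g : ℕ) (H : ℕ → ℕ → A) :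
    ∑ a ∈ J, ∑ b ∈ J, H (rp J g a) (rp J g b) * (f a * f b) =
      ∑ c ∈ Rp J g, ∑ d ∈ Rp J g, H c d * (wt f J g c * wt f J g d) := by
  have h1 : ∀ a, ∑ b ∈ J, H (rp J g a) (rp J g b) * (f a * f b) =
      (∑ d ∈ Rp J g, H (rp J g a) d * wt f J g d) * f a := by
    intro a
    rw [← sum_cl f J g (fun d => H (rp J g a) d), Finset.sum_mul]
    exact Finset.sum_congr rfl fun b _ => by ring
  simp_rw [h1]
  rw [sum_cl f J g (fun c => ∑ d ∈ Rp J g, H c d * wt f J g d)]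
  refine Finset.sum_congr rfl fun c _ => ?_
  rw [Finset.sum_mul]
  exact Finset.sum_congr rfl fun d _ => by ring

/-- sums over a range are sums over the jumps -/
theorem sum_range_J {f : ℕ → A} {J : Finset ℕ} {n : ℕ} (hJ : ∀ a, a < n → f a ≠ 0 → a ∈ J)
    (φ : ℕ → A) (hφ : ∀ a, f a = 0 → φ a = 0) {R : ℕ} (hR : R < n) :
    ∑ a ∈ range (R + 1), φ a = ∑ a ∈ J, if a ≤ R then φ a else 0 := by
  rw [← Finset.sum_filter]
  have h : ∑ a ∈ range (R + 1), φ a = ∑ a ∈ range (R + 1) with a ∈ J, φ a := by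
    rw [Finset.sum_filter]
    refine Finset.sum_congr rfl fun a ha => ?_
    split_ifs with h
    · rfl
    · apply hφ
      by_contra h0
      exact h (hJ a (by rw [mem_range] at ha; omega) h0)
  rw [h]
  refine Finset.sum_congr ?_ fun _ _ => rfl
  ext a
  simp only [mem_filter, mem_range]
  constructor
  · rintro ⟨h1, h2⟩; exact ⟨h2, by omega⟩
  · rintro ⟨h1, h2⟩; exact ⟨by omega, h1⟩

theorem Fs_J {f : ℕ → A} {J : Finset ℕ} {n : ℕ} (hJ : ∀ a, a < n → f a ≠ 0 → a ∈ J)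
    {R : ℕ} (hR : R < n) : Fs f R = ∑ a ∈ J, (if a ≤ R then (1 : A) else 0) * f a := by
  rw [Fs, sum_range_J hJ f (fun _ h => h) hR]
  exact Finset.sum_congr rfl fun a _ => by split_ifs <;> simp

theorem Ts_J {f : ℕ → A} {J : Finset ℕ} {n : ℕ} (hJ : ∀ a, a < n → f a ≠ 0 → a ∈ J)
    {R : ℕ} (hR : R < n) :
    Ts f R = ∑ a ∈ J, ∑ b ∈ J, (if a + b ≤ R then (1 : A) else 0) * (f a * f b) := by
  rw [Ts, sum_range_J hJ (fun a => f a * Fs f (R - a)) (fun a h => by simp [h]) hR]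
  refine Finset.sum_congr rfl fun a _ => ?_
  split_ifs with h
  · rw [Fs_J hJ (by omega : R - a < n), Finset.mul_sum]
    refine Finset.sum_congr rfl fun b _ => ?_
    have : (b ≤ R - a) ↔ (a + b ≤ R) := by omega
    simp only [this]
    ring
  · symm
    apply Finset.sum_eq_zero
    intro b _
    rw [if_neg (by omega)]
    ring

/-- visible clusters -/
noncomputable def Vs [DecidableEq A] (f : ℕ → A) (J : Finset ℕ) (g : ℕ) : Finset ℕ :=
  {c ∈ Rp J g | wt f J g c ≠ 0}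

theorem sum_Vs [DecidableEq A] (f : ℕ → A) (J : Finset ℕ) (g : ℕ) (H : ℕ → A) :
    ∑ c ∈ Rp J g, H c * wt f J g c = ∑ c ∈ Vs f J g, H c * wt f J g c := by
  symm
  apply Finset.sum_subset (Finset.filter_subset _ _)
  intro c hc hc2
  have : wt f J g c = 0 := by
    by_contra h
    exact hc2 (mem_filter.mpr ⟨hc, h⟩)
  rw [this, mul_zero]

theorem sum_Vs2 [DecidableEq A] (f : ℕ → A) (J : Finset ℕ) (g : ℕ) (H : ℕ → ℕ → A) :
    ∑ c ∈ Rp J g, ∑ d ∈ Rp J g, H c d * (wt f J g c * wt f J g d) =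
      ∑ c ∈ Vs f J g, ∑ d ∈ Vs f J g, H c d * (wt f J g c * wt f J g d) := by
  have h1 : ∀ c, ∑ d ∈ Rp J g, H c d * (wt f J g c * wt f J g d) =
      (∑ d ∈ Vs f J g, H c d * wt f J g d) * wt f J g c := by
    intro c
    rw [← sum_Vs f J g (fun d => H c d), Finset.sum_mul]
    exact Finset.sum_congr rfl fun b _ => by ring
  simp_rw [h1]
  rw [sum_Vs f J g (fun c => ∑ d ∈ Vs f J g, H c d * wt f J g d)]
  refine Finset.sum_congr rfl fun c _ => ?_
  rw [Finset.sum_mul]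
  exact Finset.sum_congr rfl fun d _ => by ring

/-- clean positions -/
theorem Fs_clean [DecidableEq A] {f : ℕ → A} {J : Finset ℕ} {n g : ℕ}
    (hJ : ∀ a, a < n → f a ≠ 0 → a ∈ J) {R : ℕ} (hR : R < n)
    (hcl : ∀ a ∈ J, rp J g a ≤ R → a ≤ R) :
    Fs f R = ∑ c ∈ Vs f J g, (if c ≤ R then (1 : A) else 0) * wt f J g c := by
  rw [← sum_Vs f J g (fun c => if c ≤ R then (1 : A) else 0),
    ← sum_cl f J g (fun c => if c ≤ R then (1 : A) else 0), Fs_J hJ hR]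
  refine Finset.sum_congr rfl fun a ha => ?_
  have : (a ≤ R) ↔ (rp J g a ≤ R) := ⟨fun h => ((rp_spec ha).2.1).trans h, hcl a ha⟩
  simp only [this]

theorem Ts_clean [DecidableEq A] {f : ℕ → A} {J : Finset ℕ} {n g : ℕ}
    (hJ : ∀ a, a < n → f a ≠ 0 → a ∈ J) {R : ℕ} (hR : R < n)
    (hcl : ∀ a ∈ J, ∀ b ∈ J, rp J g a + rp J g b ≤ R → a + b ≤ R) :
    Ts f R = ∑ c ∈ Vs f J g, ∑ d ∈ Vs f J g,
      (if c + d ≤ R then (1 : A) else 0) * (wt f J g c * wt f J g d) := by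
  rw [← sum_Vs2 f J g (fun c d => if c + d ≤ R then (1 : A) else 0),
    ← sum_cl2 f J g (fun c d => if c + d ≤ R then (1 : A) else 0), Ts_J hJ hR]
  refine Finset.sum_congr rfl fun a ha => Finset.sum_congr rfl fun b hb => ?_
  have : (a + b ≤ R) ↔ (rp J g a + rp J g b ≤ R) :=
    ⟨fun h => by have := (rp_spec (g := g) ha).2.1; have := (rp_spec (g := g) hb).2.1; omega,
      hcl a ha b hb⟩
  simp only [this]

end field


section count

/-- a window of length `> e + 2 ω K²` contains a good position for pairs -/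
theorem exists_clean2 {J BT : Finset ℕ} {g e ω K L : ℕ} (u : ℕ)
    (hω : ∀ a ∈ J, a ≤ rp J g a + ω) (hBT : #BT ≤ e) (hK : #(Rp J g) ≤ K)
    (hL : e + K * K * (2 * ω) < L) :
    ∃ R, u ≤ R ∧ R < u + L ∧ R ∉ BT ∧
      ∀ a ∈ J, ∀ b ∈ J, rp J g a + rp J g b ≤ R → a + b ≤ R := by
  by_contra hcon
  push Not at hcon
  have hsub : Ico u (u + L) ⊆ BT ∪ (Rp J g ×ˢ Rp J g).biUnion
      (fun q => Ico (q.1 + q.2) (q.1 + q.2 + 2 * ω)) := by
    intro R hR
    rw [mem_Ico] at hR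
    by_cases hB : R ∈ BT
    · exact mem_union_left _ hB
    · apply mem_union_right
      obtain ⟨a, ha, b, hb, h1, h2⟩ := hcon R hR.1 hR.2 hB
      rw [mem_biUnion]
      refine ⟨(rp J g a, rp J g b), mem_product.mpr ⟨(rp_spec ha).1, (rp_spec hb).1⟩, ?_⟩
      rw [mem_Ico]
      have h3 := hω a ha
      have h4 := hω b hb
      exact ⟨h1, by dsimp only; omega⟩
  have h1 := card_le_card hsub
  rw [Nat.card_Ico] at h1
  have h2 : #((Rp J g ×ˢ Rp J g).biUnion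
      (fun q => Ico (q.1 + q.2) (q.1 + q.2 + 2 * ω))) ≤ K * K * (2 * ω) := by
    refine card_biUnion_le.trans ?_
    simp only [Nat.card_Ico, Nat.add_sub_cancel_left, sum_const, card_product, smul_eq_mul]
    exact Nat.mul_le_mul_right _ (Nat.mul_le_mul hK hK)
  have h3 := card_union_le BT ((Rp J g ×ˢ Rp J g).biUnion
      (fun q => Ico (q.1 + q.2) (q.1 + q.2 + 2 * ω)))
  omega

theorem card_mult {q u g α ω : ℕ} (hq : 0 < q) :
    #{m ∈ Ico u (u + g) | α ≤ q * m ∧ q * m < α + ω} ≤ ω / q + 1 := by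
  by_cases hne : ({m ∈ Ico u (u + g) | α ≤ q * m ∧ q * m < α + ω} : Finset ℕ).Nonempty
  · obtain ⟨m0, hm0, hmin⟩ := Finset.exists_min_image _ id hne
    have hsub : ({m ∈ Ico u (u + g) | α ≤ q * m ∧ q * m < α + ω} : Finset ℕ) ⊆
        Icc m0 (m0 + ω / q) := by
      intro m hm
      have h1 : m0 ≤ m := hmin m hm
      simp only [mem_filter] at hm hm0
      rw [mem_Icc]
      refine ⟨h1, ?_⟩
      obtain ⟨d, rfl⟩ := Nat.exists_eq_add_of_le h1
      have h2 : q * m0 + q * d < α + ω := by rw [← mul_add]; exact hm.2.2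
      have h3 : d * q ≤ ω := by rw [mul_comm]; have := hm0.2.1; omega
      have h4 := (Nat.le_div_iff_mul_le hq).mpr h3
      omega
    refine (card_le_card hsub).trans ?_
    rw [Nat.card_Icc]
    generalize ω / q = t
    omega
  · rw [not_nonempty_iff_eq_empty] at hne
    rw [hne]
    simp

theorem exists_clean1 {J BF : Finset ℕ} {g e1 ω K u p k : ℕ} (hp : 3 ≤ p) (hu : g ≤ 2 * u)
    (hω : ∀ a ∈ J, a ≤ rp J g a + ω) (hBF : #BF ≤ e1) (hK : #(Rp J g) ≤ K)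
    (hc : e1 + K * (ω / p ^ k + 1) < g) :
    ∃ m, u ≤ m ∧ m < u + g ∧ (∀ a, 1 ≤ a → a ≤ k → p ^ a * m ∉ BF) ∧
      ∀ a ∈ J, rp J g a ≤ p ^ k * m → a ≤ p ^ k * m := by
  classical
  by_contra hcon
  push Not at hcon
  have hp0 : 0 < p := by omega
  have hsub : Ico u (u + g) ⊆ ({m ∈ Ico u (u + g) | ∃ a, 1 ≤ a ∧ a ≤ k ∧ p ^ a * m ∈ BF}) ∪
      (Rp J g).biUnion
      (fun α => {m ∈ Ico u (u + g) | α ≤ p ^ k * m ∧ p ^ k * m < α + ω}) := by
    intro m hm
    have hm' := mem_Ico.mp hm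
    by_cases hB : ∃ a, 1 ≤ a ∧ a ≤ k ∧ p ^ a * m ∈ BF
    · exact mem_union_left _ (mem_filter.mpr ⟨hm, hB⟩)
    · apply mem_union_right
      push Not at hB
      obtain ⟨a, ha, h1, h2⟩ := hcon m hm'.1 hm'.2 hB
      rw [mem_biUnion]
      refine ⟨rp J g a, (rp_spec ha).1, mem_filter.mpr ⟨hm, h1, ?_⟩⟩
      have h3 := hω a ha
      omega
  have h1 := card_le_card hsub
  rw [Nat.card_Ico] at h1
  have h2 : #((Rp J g).biUnion
      (fun α => {m ∈ Ico u (u + g) | α ≤ p ^ k * m ∧ p ^ k * m < α + ω})) ≤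
      K * (ω / p ^ k + 1) := by
    refine card_biUnion_le.trans ?_
    refine (Finset.sum_le_card_nsmul _ _ _
      (fun α _ => card_mult (α := α) (u := u) (g := g) (ω := ω) (pow_pos hp0 k))).trans ?_
    rw [smul_eq_mul]
    exact Nat.mul_le_mul_right _ hK
  have h4 : #({m ∈ Ico u (u + g) | ∃ a, 1 ≤ a ∧ a ≤ k ∧ p ^ a * m ∈ BF}) ≤ #BF := by
    refine Finset.card_le_card_of_forall_subsingleton
      (fun m R => ∃ a, 1 ≤ a ∧ a ≤ k ∧ R = p ^ a * m) ?_ ?_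
    · intro m hm
      rw [mem_filter] at hm
      obtain ⟨_, a, h1, h2, h3⟩ := hm
      exact ⟨_, h3, a, h1, h2, rfl⟩
    · intro R _
      have key : ∀ m m' : ℕ, m < u + g → u ≤ m' → ∀ a a' : ℕ, a < a' →
          p ^ a * m = p ^ a' * m' → False := by
        intro m m' hm hm' a a' haa he
        obtain ⟨d, rfl⟩ := Nat.exists_eq_add_of_lt haa
        rw [show a + d + 1 = a + (d + 1) by ring, pow_add, mul_assoc] at he
        have he2 := Nat.eq_of_mul_eq_mul_left (pow_pos hp0 a) he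
        have h5 : 3 ≤ p ^ (d + 1) := by
          calc 3 ≤ p := hp
            _ = p ^ 1 := (pow_one p).symm
            _ ≤ p ^ (d + 1) := Nat.pow_le_pow_right hp0 (by omega)
        have h6 : 3 * m' ≤ p ^ (d + 1) * m' := Nat.mul_le_mul_right _ h5
        omega
      intro m hm m' hm'
      simp only [mem_filter, mem_Ico, Set.mem_ofPred_eq] at hm hm'
      obtain ⟨⟨⟨h1, h2⟩, _⟩, a, ha1, ha2, ha3⟩ := hm
      obtain ⟨⟨⟨h1', h2'⟩, _⟩, a', ha1', ha2', ha3'⟩ := hm'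
      rcases lt_trichotomy a a' with h | h | h
      · exact (key m m' h2 h1' a a' h (ha3 ▸ ha3')).elim
      · subst h
        rw [ha3] at ha3'
        exact Nat.eq_of_mul_eq_mul_left (pow_pos hp0 a) ha3'
      · exact (key m' m h2' h1 a' a h (ha3' ▸ ha3)).elim
  have h3 := card_union_le ({m ∈ Ico u (u + g) | ∃ a, 1 ≤ a ∧ a ≤ k ∧ p ^ a * m ∈ BF})
    ((Rp J g).biUnion (fun α => {m ∈ Ico u (u + g) | α ≤ p ^ k * m ∧ p ^ k * m < α + ω}))
  omega

end count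


/-- last jump of the cluster of `c` -/
def ls (J : Finset ℕ) (g c : ℕ) : ℕ := ({a ∈ J | rp J g a = c} : Finset ℕ).sup id

theorem ls_spec {J : Finset ℕ} {g c : ℕ} (hc : c ∈ Rp J g) :
    ls J g c ∈ J ∧ rp J g (ls J g c) = c ∧ c ≤ ls J g c := by
  have hne : ({a ∈ J | rp J g a = c} : Finset ℕ).Nonempty :=
    ⟨c, mem_filter.mpr ⟨Rp_sub hc, rp_self hc⟩⟩
  obtain ⟨i, hi, hi2⟩ := Finset.exists_mem_eq_sup _ hne (id : ℕ → ℕ)
  have e : ls J g c = i := hi2
  rw [mem_filter] at hi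
  rw [e]
  refine ⟨hi.1, hi.2, ?_⟩
  rw [← e]
  exact Finset.le_sup (f := id) (mem_filter.mpr ⟨Rp_sub hc, rp_self hc⟩)

theorem le_ls {J : Finset ℕ} {g c a : ℕ} (ha : a ∈ J) (h : rp J g a = c) : a ≤ ls J g c :=
  Finset.le_sup (f := id) (mem_filter.mpr ⟨ha, h⟩)

theorem chain {A : Type*} [Field A] {f : ℕ → A} {n p : ℕ} {BF : Finset ℕ} (hp : 0 < p)
    (hBF : ∀ R, R < n → R ∉ BF → Fs f R = - Fs f (R / p)) (m : ℕ) : ∀ k : ℕ,
    (∀ a, 1 ≤ a → a ≤ k → p ^ a * m ∉ BF) → p ^ k * m < n →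
    Fs f (p ^ k * m) = (-1) ^ k * Fs f m := by
  intro k
  induction k with
  | zero => intro _ _; simp
  | succ k ih =>
    intro h1 h2
    have h3 : p ^ (k + 1) * m = p * (p ^ k * m) := by ring
    have h4 : p ^ k * m ≤ p ^ (k + 1) * m := by
      rw [h3]
      exact Nat.le_mul_of_pos_left _ hp
    rw [hBF _ h2 (h1 (k + 1) (by omega) le_rfl), h3, Nat.mul_div_cancel_left _ hp,
      ih (fun a ha hak => h1 a ha (by omega)) (by omega), pow_succ]
    ring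

section main

variable {A : Type*} [Field A] [DecidableEq A]

theorem mem_Vs {f : ℕ → A} {J : Finset ℕ} {g c : ℕ} :
    c ∈ Vs f J g ↔ c ∈ Rp J g ∧ wt f J g c ≠ 0 := mem_filter

/-- part 3: scaling of visible clusters -/
theorem part3 {f : ℕ → A} {n K e1 g ω W p k : ℕ} {J BF : Finset ℕ}
    (hJ : ∀ a, a < n → f a ≠ 0 → a ∈ J) (hp : 3 ≤ p)
    (hBF : ∀ R, R < n → R ∉ BF → Fs f R = - Fs f (R / p)) (hBF2 : #BF ≤ e1)
    (hK : #(Rp J g) ≤ K) (hω : ∀ a ∈ J, a ≤ rp J g a + ω) (hg : 0 < g)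
    (hc : e1 + K * (ω / p ^ k + 1) < g) (hW : 4 * g ≤ W)
    {c : ℕ} (hcV : c ∈ Vs f J g) (hWc : W ≤ c) (hn : p ^ k * (ls J g c + g) ≤ n) :
    ∃ c' ∈ Vs f J g, p ^ k * (c - g) ≤ c' ∧ c' ≤ p ^ k * (ls J g c + g) := by
  have hcR := (mem_Vs.mp hcV).1
  obtain ⟨hl1, hl2, hl3⟩ := ls_spec hcR
  obtain ⟨m1, h11, h12, h13, h14⟩ := exists_clean1 (u := c - g) hp (by omega) hω hBF2 hK hc
  obtain ⟨m2, h21, h22, h23, h24⟩ := exists_clean1 (u := ls J g c) hp (by omega) hω hBF2 hK hc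
  have hp0 : 0 < p := by omega
  have hpk : 0 < p ^ k := pow_pos hp0 k
  have hm1c : m1 < c := by omega
  have hR2 : p ^ k * m2 < n := lt_of_lt_of_le (Nat.mul_lt_mul_of_pos_left h22 hpk) hn
  have hR12 : p ^ k * m1 ≤ p ^ k * m2 := Nat.mul_le_mul_left _ (by omega)
  have hR1 : p ^ k * m1 < n := lt_of_le_of_lt hR12 hR2
  have hm2n : m2 < n := lt_of_le_of_lt (Nat.le_mul_of_pos_left _ hpk) hR2
  have hm1n : m1 < n := by omega
  -- clean
  have hcl1 : ∀ a ∈ J, rp J g a ≤ m1 → a ≤ m1 := by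
    intro a ha h
    have := far hcR ha (by omega)
    omega
  have hcl2 : ∀ a ∈ J, rp J g a ≤ m2 → a ≤ m2 := by
    intro a ha h
    rcases lt_trichotomy (rp J g a) c with h1 | h1 | h1
    · have := far hcR ha h1
      omega
    · have := le_ls ha h1
      omega
    · have := far (g := g) (rp_spec ha).1 hl1 (by omega)
      omega
  have hV1 : ∀ α ∈ Vs f J g, (α ≤ m1 ↔ α < c) := by
    intro α hα
    have hαJ := Rp_sub (mem_Vs.mp hα).1
    constructor
    · intro h; omega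
    · intro h
      have := Rp_gap hcR hαJ h
      omega
  have hV2 : ∀ α ∈ Vs f J g, (α ≤ m2 ↔ α ≤ c) := by
    intro α hα
    have hαR := (mem_Vs.mp hα).1
    constructor
    · intro h
      by_contra hcon
      have := far hαR hl1 (by omega)
      omega
    · intro h; omega
  have hdiff : Fs f m2 - Fs f m1 = wt f J g c := by
    rw [Fs_clean hJ hm2n hcl2, Fs_clean hJ hm1n hcl1, ← Finset.sum_sub_distrib]
    rw [Finset.sum_eq_single_of_mem c hcV]
    · rw [if_pos ((hV2 c hcV).mpr le_rfl), if_neg (by rw [hV1 c hcV]; exact lt_irrefl c)]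
      ring
    · intro α hα hne
      rcases lt_or_gt_of_ne hne with h | h
      · rw [if_pos ((hV2 α hα).mpr h.le), if_pos ((hV1 α hα).mpr h)]
        ring
      · rw [if_neg (by rw [hV2 α hα]; omega), if_neg (by rw [hV1 α hα]; omega)]
        ring
  have hdiff2 : Fs f (p ^ k * m2) - Fs f (p ^ k * m1) ≠ 0 := by
    rw [chain hp0 hBF m2 k h23 hR2, chain hp0 hBF m1 k h13 hR1, ← mul_sub, hdiff]
    exact mul_ne_zero (pow_ne_zero _ (by norm_num)) (mem_Vs.mp hcV).2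
  rw [Fs_clean hJ hR2 h24, Fs_clean hJ hR1 h14, ← Finset.sum_sub_distrib] at hdiff2
  obtain ⟨α, hα, hne⟩ := Finset.exists_ne_zero_of_sum_ne_zero hdiff2
  have h5 : p ^ k * m1 < α ∧ α ≤ p ^ k * m2 := by
    by_contra hcon
    apply hne
    by_cases hh : α ≤ p ^ k * m1
    · rw [if_pos hh, if_pos (hh.trans hR12), sub_self]
    · rw [if_neg hh, if_neg (by intro h; exact hcon ⟨by omega, h⟩), sub_self]
  refine ⟨α, hα, ?_, ?_⟩
  · exact (Nat.mul_le_mul_left _ h11).trans h5.1.le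
  · exact h5.2.trans (Nat.mul_le_mul_left _ h22.le)

theorem part4 {f : ℕ → A} {n K e g ω L W : ℕ} {J BT : Finset ℕ} {D : A} (h2 : (2 : A) ≠ 0)
    (hJ : ∀ a, a < n → f a ≠ 0 → a ∈ J)
    (hBT : ∀ R, R < n → R ∉ BT → Ts f R = D) (hBT2 : #BT ≤ e)
    (hK : #(Rp J g) ≤ K) (hω : ∀ a ∈ J, a ≤ rp J g a + ω)
    (hL : e + K * K * (2 * ω) < L) (hLW : L ≤ W)
    {s x : ℕ} (hs : s ∈ Vs f J g) (hx : x ∈ Vs f J g) (hsx : s ≠ x) (h1 : W ≤ s + x)
    (hn : s + x + W ≤ n) :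
    ∃ α ∈ Vs f J g, ∃ β ∈ Vs f J g, (α, β) ≠ (s, x) ∧ (α, β) ≠ (x, s) ∧
      α + β ≤ s + x + W ∧ s + x ≤ α + β + W := by
  obtain ⟨R1, h11, h12, h13, h14⟩ := exists_clean2 (s + x - L) hω hBT2 hK hL
  obtain ⟨R2, h21, h22, h23, h24⟩ := exists_clean2 (s + x) hω hBT2 hK hL
  by_contra hcon
  push Not at hcon
  have e1 := Ts_clean hJ (by omega : R1 < n) h14
  have e2 := Ts_clean hJ (by omega : R2 < n) h24
  rw [hBT R1 (by omega) h13] at e1
  rw [hBT R2 (by omega) h23] at e2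
  rw [← Finset.sum_product'] at e1 e2
  have e3 : ∑ z ∈ Vs f J g ×ˢ Vs f J g,
      ((if z.1 + z.2 ≤ R2 then (1 : A) else 0) - (if z.1 + z.2 ≤ R1 then (1 : A) else 0)) *
        (wt f J g z.1 * wt f J g z.2) = 0 := by
    simp_rw [sub_mul]
    rw [Finset.sum_sub_distrib, ← e1, ← e2, sub_self]
  have hsub : ({(s, x), (x, s)} : Finset (ℕ × ℕ)) ⊆ Vs f J g ×ˢ Vs f J g := by
    intro z hz
    rw [mem_insert, mem_singleton] at hz
    rcases hz with rfl | rfl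
    · exact mem_product.mpr ⟨hs, hx⟩
    · exact mem_product.mpr ⟨hx, hs⟩
  rw [← Finset.sum_subset hsub] at e3
  · rw [Finset.sum_pair (by intro h; exact hsx (Prod.mk.injEq _ _ _ _ ▸ h).1)] at e3
    simp only at e3
    rw [if_pos (by omega : s + x ≤ R2), if_neg (by omega : ¬ s + x ≤ R1),
      if_pos (by omega : x + s ≤ R2), if_neg (by omega : ¬ x + s ≤ R1)] at e3
    have e4 : (2 : A) * (wt f J g s * wt f J g x) = 0 := by
      rw [← e3]; ring
    rcases mul_eq_zero.mp e4 with h | h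
    · exact h2 h
    · rcases mul_eq_zero.mp h with h | h
      · exact (mem_Vs.mp hs).2 h
      · exact (mem_Vs.mp hx).2 h
  · rintro ⟨α, β⟩ hz hz2
    rw [mem_product] at hz
    rw [mem_insert, mem_singleton, not_or] at hz2
    have h5 := hcon α hz.1 β hz.2 hz2.1 hz2.2
    simp only
    by_cases hh : α + β ≤ R1
    · rw [if_pos hh, if_pos (by omega), sub_self, zero_mul]
    · rw [if_neg hh, if_neg (by intro h; have := h5 (by omega); omega), sub_self, zero_mul]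

theorem part5 {f : ℕ → A} {n K e g ω L W : ℕ} {J BT : Finset ℕ} {D : A} (hD : ¬ IsSquare D)
    (hJ : ∀ a, a < n → f a ≠ 0 → a ∈ J)
    (hBT : ∀ R, R < n → R ∉ BT → Ts f R = D) (hBT2 : #BT ≤ e)
    (hK : #(Rp J g) ≤ K) (hω : ∀ a ∈ J, a ≤ rp J g a + ω)
    (hL : e + K * K * (2 * ω) < L) (hLW : L ≤ W) {Y : ℕ} (hY : W < Y) (hn : 3 * Y ≤ n) :
    ∃ c ∈ Vs f J g, Y < c ∧ c < 3 * Y := by
  obtain ⟨R, h21, h22, h23, h24⟩ := exists_clean2 (2 * Y) hω hBT2 hK hL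
  by_contra hcon
  push Not at hcon
  apply hD
  have e2 := Ts_clean hJ (by omega : R < n) h24
  rw [hBT R (by omega) h23] at e2
  refine ⟨∑ c ∈ Vs f J g, (if c ≤ Y then (1 : A) else 0) * wt f J g c, ?_⟩
  rw [e2, Finset.sum_mul]
  refine Finset.sum_congr rfl fun c hc => ?_
  rw [Finset.mul_sum]
  refine Finset.sum_congr rfl fun d hd => ?_
  have h5 := hcon c hc
  have h6 := hcon d hd
  have : (if c + d ≤ R then (1 : A) else 0) =
      (if c ≤ Y then (1 : A) else 0) * (if d ≤ Y then (1 : A) else 0) := by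
    by_cases hc' : c ≤ Y
    · by_cases hd' : d ≤ Y
      · rw [if_pos (by omega), if_pos hc', if_pos hd', one_mul]
      · rw [if_neg (by have := h6 (by omega); omega), if_neg hd', mul_zero]
    · rw [if_neg (by have := h5 (by omega); omega), if_neg hc', zero_mul]
  rw [this]
  ring

end main

/-- piece CLU -/
theorem clu : S_CLU := by
  intro p hpF hp2 f D hD n K e e1 hK1 hK hT hF k0 hk0
  have hp : p.Prime := hpF.out
  have hp3 : 3 ≤ p := by
    have := hp.two_le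
    omega
  set J : Finset ℕ := {a ∈ range n | f a ≠ 0} with hJdef
  set BT : Finset ℕ := {R ∈ range n | Ts f R ≠ D} with hBTdef
  set BF : Finset ℕ := {R ∈ range n | Fs f R ≠ - Fs f (R / p)} with hBFdef
  have hJ : ∀ a, a < n → f a ≠ 0 → a ∈ J := fun a h1 h2 =>
    mem_filter.mpr ⟨mem_range.mpr h1, h2⟩
  have hJn : ∀ a ∈ J, a < n := fun a ha => mem_range.mp (mem_filter.mp ha).1
  have hBT : ∀ R, R < n → R ∉ BT → Ts f R = D := by
    intro R h1 h2
    by_contra h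
    exact h2 (mem_filter.mpr ⟨mem_range.mpr h1, h⟩)
  have hBF : ∀ R, R < n → R ∉ BF → Fs f R = - Fs f (R / p) := by
    intro R h1 h2
    by_contra h
    exact h2 (mem_filter.mpr ⟨mem_range.mpr h1, h⟩)
  obtain ⟨g, hg⟩ : ∃ g, g = 2 * (e1 + K) + 2 := ⟨_, rfl⟩
  obtain ⟨ω, hωd⟩ : ∃ ω, ω = 4 * g * K := ⟨_, rfl⟩
  obtain ⟨L, hLd⟩ : ∃ L, L = e + K * K * (2 * ω) + 1 := ⟨_, rfl⟩
  obtain ⟨M, hM⟩ : ∃ M, M = K + e + e1 + 1 := ⟨_, rfl⟩
  have hRK : #(Rp J g) ≤ K := (card_filter_le _ _).trans hK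
  have hω : ∀ a ∈ J, a ≤ rp J g a + ω := by
    intro a ha
    have h1 := (rp_spec (g := g) ha).2.2
    have h2 : 4 * g * #J ≤ 4 * g * K := Nat.mul_le_mul_left _ hK
    omega
  have hM1 : 1 ≤ M := by omega
  have hgM : g ≤ 2 * M := by omega
  have hKM : K ≤ M := by omega
  have hωM : ω ≤ 8 * M ^ 2 := by
    rw [hωd]
    calc 4 * g * K ≤ 4 * (2 * M) * M := Nat.mul_le_mul (Nat.mul_le_mul_left _ hgM) hKM
      _ = 8 * M ^ 2 := by ring
  have hM24 : M ^ 2 ≤ M ^ 4 := Nat.pow_le_pow_right hM1 (by norm_num)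
  have hM14 : M ≤ M ^ 4 := by
    calc M = M ^ 1 := (pow_one M).symm
      _ ≤ M ^ 4 := Nat.pow_le_pow_right hM1 (by norm_num)
  have hLM : L ≤ M + 16 * M ^ 4 := by
    rw [hLd]
    have h1 : K * K * (2 * ω) ≤ M * M * (2 * (8 * M ^ 2)) :=
      Nat.mul_le_mul (Nat.mul_le_mul hKM hKM) (Nat.mul_le_mul_left _ hωM)
    have h2 : M * M * (2 * (8 * M ^ 2)) = 16 * M ^ 4 := by ring
    omega
  obtain ⟨W, hW⟩ : ∃ W, W = 100 * (K + e + e1 + 1) ^ 4 := ⟨_, rfl⟩
  rw [← hM] at hW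
  have hL : e + K * K * (2 * ω) < L := by omega
  refine ⟨Vs f J g, fun c => c - g, fun c => ls J g c + g, (card_filter_le _ _).trans hRK, ?_⟩
  rw [← hM, ← hW]
  refine ⟨?_, ?_, ?_, ?_, ?_⟩
  · intro c hc
    have hcR := (mem_Vs.mp hc).1
    obtain ⟨hl1, hl2, hl3⟩ := ls_spec hcR
    have h1 := hω _ hl1
    rw [hl2] at h1
    refine ⟨hJn c (Rp_sub hcR), Nat.sub_le _ _, ?_, ?_⟩
    · dsimp only; omega
    · dsimp only; omega
  · intro c hc c' hc' hlt
    have hcR := (mem_Vs.mp hc).1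
    have hcR' := (mem_Vs.mp hc').1
    obtain ⟨hl1, hl2, hl3⟩ := ls_spec hcR
    have := far hcR' hl1 (by omega)
    dsimp only
    omega
  · intro c hc hWc k hk hn
    refine part3 hJ hp3 hBF hF hRK hω (by omega) ?_ (by omega) hc hWc hn
    have hq : 8 * K ^ 2 < p ^ k := lt_of_lt_of_le hk0 (Nat.pow_le_pow_right hp.pos hk)
    obtain ⟨t, ht⟩ : ∃ t, t = ω / p ^ k := ⟨_, rfl⟩
    have h1 : t * p ^ k ≤ ω := ht ▸ Nat.div_mul_le_self ω (p ^ k)
    have h2 : t * (8 * K ^ 2) ≤ 4 * g * K := by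
      rw [← hωd]
      exact (Nat.mul_le_mul_left _ hq.le).trans h1
    have h3 : 2 * (K * t) ≤ g := by
      have h4 : 4 * K * (2 * (K * t)) ≤ 4 * K * g := by
        calc 4 * K * (2 * (K * t)) = t * (8 * K ^ 2) := by ring
          _ ≤ 4 * g * K := h2
          _ = 4 * K * g := by ring
      exact Nat.le_of_mul_le_mul_left h4 (by omega)
    rw [← ht, mul_add, mul_one]
    omega
  · intro s hs x hx hsx h1 h2
    have h20 : (2 : ZMod p) ≠ 0 := by
      intro h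
      have h' : ((2 : ℕ) : ZMod p) = 0 := by exact_mod_cast h
      rw [ZMod.natCast_eq_zero_iff] at h'
      exact hp2 ((Nat.prime_dvd_prime_iff_eq hp Nat.prime_two).mp h')
    exact part4 h20 hJ hBT hT hRK hω hL (by omega) hs hx hsx h1 h2
  · intro Y hY hn
    exact part5 hD hJ hBT hT hRK hω hL (by omega) hY hn

end Run7.h781.DC
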